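import Pool.Agent.Lib.Counters.Tight.Run

/-!
The first generation: power series of `B q` near `0`.
-/

namespace Pool.Agent.Counters.Tight

open Set

def sumR (f : ℕ → ℚ) : ℕ → ℚ
  | 0 => 0
  | n + 1 => sumR f n + f n

theorem sumR_cast (f : ℕ → ℚ) (n : ℕ) : ((sumR f n : ℚ) : ℝ) = ∑ i ∈ Finset.range n, (f i : ℝ) := by
  induction n with
  | zero => simp [sumR]
  | succ n ih => rw [sumR, Finset.sum_range_succ, ← ih]; push_cast; rfl

/-- next coefficient from the list of the previous ones (`m` is the length of the list) -/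
def nextB (q : ℚ) (m : ℕ) (l : List ℚ) : ℚ :=
  sumR (fun i => q ^ (i + 1) * (1 - q ^ (m - 1 - i)) * l.getD (i + 1) 0 * l.getD (m - 1 - i) 0)
    (m - 1) / ((m : ℚ) * (1 - q) - (1 - q ^ m))

/-- the first `n + 2` coefficients -/
def betaL (q : ℚ) : ℕ → List ℚ
  | 0 => [1, -1]
  | n + 1 => betaL q n ++ [nextB q (n + 2) (betaL q n)]

theorem betaL_length (q : ℚ) (n : ℕ) : (betaL q n).length = n + 2 := by
  induction n with
  | zero => simp [betaL]
  | succ n ih => simp [betaL, ih]

theorem betaL_spec (q : ℚ) (n : ℕ) : ∀ k < n + 2, (((betaL q n).getD k 0 : ℚ) : ℝ) = beta (q : ℝ) k := by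
  induction n with
  | zero =>
    intro k hk
    interval_cases k
    · simp [betaL, beta_zero]
    · simp [betaL, beta_one]
  | succ n ih =>
    intro k hk
    have hl := betaL_length q n
    rcases Nat.lt_or_ge k (n + 2) with h | h
    · rw [betaL, List.getD_append _ _ _ _ (by omega)]
      exact ih k h
    · have hk' : k = n + 2 := by omega
      subst hk'
      rw [betaL, List.getD_append_right _ _ _ _ (by omega), hl]
      simp only [Nat.sub_self, List.getD_cons_zero]
      rw [nextB, beta_succ_succ]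
      push_cast
      rw [sumR_cast]
      congr 1
      refine Finset.sum_congr (by congr 1) fun i hi => ?_
      rw [Finset.mem_range] at hi
      push_cast
      rw [ih (i + 1) (by omega), ih (n + 1 - i) (by omega)]

/-- check that the integers `r` divided by `S` are the coefficients up to `1 / S` -/
def coefOK (q : ℚ) (S : ℤ) (n : ℕ) (r : List ℤ) : Bool :=
  (List.range (n + 2)).all fun k => decide (|(betaL q n).getD k 0 * S - r.getD k 0| ≤ 1)

/-- `ev (comp C H M r) s = M ^ r.length * ev r ((C + H s) / M)` -/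
def comp (C H M : ℤ) : List ℤ → List ℤ
  | [] => []
  | a :: r => padd [a * M ^ (r.length + 1)] (pmul [C, H] (comp C H M r))

theorem ev_comp (C H M : ℤ) (hM : M ≠ 0) (r : List ℤ) (s : ℝ) :
    ev (comp C H M r) s = (M : ℝ) ^ r.length * ev r (((C : ℝ) + H * s) / M) := by
  have hM' : (M : ℝ) ≠ 0 := by exact_mod_cast hM
  induction r with
  | nil => simp [comp, ev]
  | cons a r ih =>
    simp only [comp, ev_padd, ev_pmul, ih, ev, List.length_cons]
    push_cast
    field_simp
    ring

theorem ev_eq_sum (r : List ℤ) (E : ℝ) :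
    ev r E = ∑ k ∈ Finset.range r.length, (r.getD k 0 : ℝ) * E ^ k := by
  induction r with
  | nil => simp [ev]
  | cons a r ih =>
    rw [ev, ih, List.length_cons, Finset.sum_range_succ', Finset.mul_sum]
    simp only [List.getD_cons_succ, List.getD_cons_zero, pow_zero, mul_one]
    rw [add_comm]
    congr 1
    refine Finset.sum_congr rfl fun k _ => ?_
    ring

/-- the tail of the series -/
theorem tail_le {q E : ℝ} (hq : 0 < q) (hq1 : q < 1) (hx : 1 / (1 - q) ^ 2 ≤ 12 / 5) (hE : 0 ≤ E)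
    (hE1 : E ≤ 1 / 100) (n : ℕ) :
    |B q E - ∑ k ∈ Finset.range (n + 1), beta q k * E ^ k| ≤
      (12 / 5) ^ n * E ^ (n + 1) * (125 / 122) := by
  have hs : Summable fun k => beta q k * E ^ k := (beta_summable_abs q hq hq1 E).of_abs
  have h1 : B q E = ∑ k ∈ Finset.range (n + 1), beta q k * E ^ k +
      ∑' k, beta q (k + (n + 1)) * E ^ (k + (n + 1)) := by
    unfold B
    exact (hs.sum_add_tsum_nat_add (n + 1)).symm
  rw [h1, add_sub_cancel_left]
  have hb : ∀ k, |beta q (k + (n + 1)) * E ^ (k + (n + 1))| ≤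
      (12 / 5) ^ n * E ^ (n + 1) * (3 / 125) ^ k := by
    intro k
    rw [abs_mul, abs_of_nonneg (pow_nonneg hE _)]
    have h2 : |beta q (k + (n + 1))| ≤ (12 / 5) ^ (k + n) := by
      have h3 := abs_beta_le q hq1 q hq le_rfl (k + n + 1)
      have h4 := maj_start q hq hq1 (k + n)
      have h5 : (1 / (1 - q) ^ 2) ^ (k + n) ≤ (12 / 5 : ℝ) ^ (k + n) :=
        pow_le_pow_left₀ (by positivity) hx _
      exact h3.trans (h4.trans h5)
    have h6 : E ^ (k + (n + 1)) = E ^ (n + 1) * E ^ k := by ring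
    have h7 : E ^ k ≤ (1 / 100 : ℝ) ^ k := pow_le_pow_left₀ hE hE1 _
    have h8 : E ^ (k + (n + 1)) ≤ E ^ (n + 1) * (1 / 100 : ℝ) ^ k := by
      rw [h6]
      exact mul_le_mul_of_nonneg_left h7 (pow_nonneg hE _)
    calc |beta q (k + (n + 1))| * E ^ (k + (n + 1))
        ≤ (12 / 5) ^ (k + n) * (E ^ (n + 1) * (1 / 100 : ℝ) ^ k) := by
          apply mul_le_mul h2 h8 (pow_nonneg hE _) (by positivity)
      _ = (12 / 5) ^ n * E ^ (n + 1) * ((12 / 5) ^ k * (1 / 100) ^ k) := by ring
      _ = (12 / 5) ^ n * E ^ (n + 1) * (3 / 125) ^ k := by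
          rw [← mul_pow]
          norm_num
  have hg : HasSum (fun k : ℕ => (12 / 5 : ℝ) ^ n * E ^ (n + 1) * (3 / 125) ^ k)
      ((12 / 5) ^ n * E ^ (n + 1) * (125 / 122)) := by
    have := (hasSum_geometric_of_lt_one (r := (3 / 125 : ℝ)) (by norm_num) (by norm_num)).mul_left
      ((12 / 5 : ℝ) ^ n * E ^ (n + 1))
    have h9 : (1 - 3 / 125 : ℝ)⁻¹ = 125 / 122 := by norm_num
    rwa [h9] at this
  have := tsum_of_norm_bounded (f := fun k => beta q (k + (n + 1)) * E ^ (k + (n + 1))) hg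
    (fun k => by rw [Real.norm_eq_abs]; exact hb k)
  rwa [Real.norm_eq_abs] at this

theorem base_point {qq : ℚ} {q E : ℝ} {S : ℤ} {r : List ℤ} {n : ℕ} (hqq : q = (qq : ℝ))
    (hq : 0 < q) (hq1 : q < 1)
    (hx : 1 / (1 - q) ^ 2 ≤ 12 / 5) (hE : 0 ≤ E) (hE1 : E ≤ 1 / 100) (hS : 0 < S)
    (hlen : r.length = n + 2) (hok : coefOK qq S n r = true) {t : ℤ}
    (ht : (S : ℝ) * ((12 / 5) ^ (n + 1) * (1 / 100) ^ (n + 2) * (125 / 122)) + 2 ≤ t) :
    |B q E - ev r E / S| ≤ (t : ℝ) / S := by
  have hSR : (0 : ℝ) < S := by exact_mod_cast hS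
  have hcoef : ∀ k < n + 2, |beta q k - (r.getD k 0 : ℝ) / S| ≤ 1 / S := by
    intro k hk
    unfold coefOK at hok
    rw [List.all_eq_true] at hok
    have h1 := hok k (List.mem_range.2 hk)
    rw [decide_eq_true_iff] at h1
    have h2 : |(((betaL qq n).getD k 0 : ℚ) : ℝ) * S - (r.getD k 0 : ℝ)| ≤ 1 := by
      exact_mod_cast h1
    rw [betaL_spec qq n k hk, ← hqq] at h2
    have h3 : beta q k - (r.getD k 0 : ℝ) / S = (beta q k * S - (r.getD k 0 : ℝ)) / S := by
      field_simp
    rw [h3, abs_div, abs_of_pos hSR]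
    exact div_le_div_of_nonneg_right h2 hSR.le
  have htail := tail_le hq hq1 hx hE hE1 (n + 1)
  have hEp : E ^ (n + 1 + 1) ≤ (1 / 100) ^ (n + 2) := pow_le_pow_left₀ hE hE1 _
  have htail2 : |B q E - ∑ k ∈ Finset.range (n + 2), beta q k * E ^ k| ≤
      (12 / 5) ^ (n + 1) * (1 / 100) ^ (n + 2) * (125 / 122) := by
    refine htail.trans ?_
    apply mul_le_mul_of_nonneg_right _ (by norm_num)
    exact mul_le_mul_of_nonneg_left hEp (by positivity)
  have hfin : |∑ k ∈ Finset.range (n + 2), beta q k * E ^ k - ev r E / S| ≤ 2 / S := by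
    rw [ev_eq_sum, hlen, Finset.sum_div, ← Finset.sum_sub_distrib]
    refine (Finset.abs_sum_le_sum_abs _ _).trans ?_
    have h4 : ∀ k ∈ Finset.range (n + 2),
        |beta q k * E ^ k - (r.getD k 0 : ℝ) * E ^ k / S| ≤ 1 / S * (1 / 100) ^ k := by
      intro k hk
      have h5 : beta q k * E ^ k - (r.getD k 0 : ℝ) * E ^ k / S =
          (beta q k - (r.getD k 0 : ℝ) / S) * E ^ k := by ring
      rw [h5, abs_mul, abs_of_nonneg (pow_nonneg hE _)]
      exact mul_le_mul (hcoef k (Finset.mem_range.1 hk)) (pow_le_pow_left₀ hE hE1 _)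
        (pow_nonneg hE _) (by positivity)
    refine (Finset.sum_le_sum h4).trans ?_
    rw [← Finset.mul_sum]
    have h6 : ∑ k ∈ Finset.range (n + 2), (1 / 100 : ℝ) ^ k ≤ 2 := by
      have h7 := Summable.sum_le_tsum (f := fun k : ℕ => (1 / 100 : ℝ) ^ k) (Finset.range (n + 2))
        (fun k _ => by positivity) (summable_geometric_of_lt_one (by norm_num) (by norm_num))
      rw [tsum_geometric_of_lt_one (by norm_num) (by norm_num)] at h7
      refine h7.trans (by norm_num)
    calc 1 / (S : ℝ) * ∑ k ∈ Finset.range (n + 2), (1 / 100 : ℝ) ^ k ≤ 1 / S * 2 :=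
          mul_le_mul_of_nonneg_left h6 (by positivity)
      _ = 2 / S := by ring
  have h8 := abs_add_le (B q E - ∑ k ∈ Finset.range (n + 2), beta q k * E ^ k)
    (∑ k ∈ Finset.range (n + 2), beta q k * E ^ k - ev r E / S)
  rw [sub_add_sub_cancel] at h8
  refine h8.trans ((add_le_add htail2 hfin).trans ?_)
  rw [le_div_iff₀ hSR]
  calc ((12 / 5) ^ (n + 1) * (1 / 100) ^ (n + 2) * (125 / 122) + 2 / (S : ℝ)) * S
      = (S : ℝ) * ((12 / 5) ^ (n + 1) * (1 / 100) ^ (n + 2) * (125 / 122)) + 2 := by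
        field_simp
    _ ≤ t := ht

/-- check of the first generation -/
def baseOK (M t : ℤ) (r : List ℤ) : List (ℤ × ℤ) → List (List ℤ × ℤ) → Bool
  | [], [] => true
  | g :: geo, p :: cur =>
    decide (n1 (psub (comp g.1 g.2 M r) (psmul (M ^ r.length) p.1)) ≤ M ^ r.length * (p.2 - t)) &&
    decide (0 ≤ g.1 - g.2) && decide (0 ≤ g.2) && decide (100 * (g.1 + g.2) ≤ M) && baseOK M t r geo cur
  | _, _ => false

theorem base_sound {qq : ℚ} {q den : ℝ} {S M t : ℤ} {r : List ℤ} {n : ℕ} (hqq : q = (qq : ℝ))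
    (hq : 0 < q) (hq1 : q < 1)
    (hx : 1 / (1 - q) ^ 2 ≤ 12 / 5) (hS : 0 < S) (hM : 0 < M) (hMden : (M : ℝ) = 100 * den)
    (hlen : r.length = n + 2) (hok : coefOK qq S n r = true)
    (ht : (S : ℝ) * ((12 / 5) ^ (n + 1) * (1 / 100) ^ (n + 2) * (125 / 122)) + 2 ≤ t) :
    ∀ (geo : List (ℤ × ℤ)) (cur : List (List ℤ × ℤ)), baseOK M t r geo cur = true →
      List.Forall₂ (Appr q (1 / 100) den S) geo cur := by
  have hSR : (0 : ℝ) < S := by exact_mod_cast hS
  have hMR : (0 : ℝ) < M := by exact_mod_cast hM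
  intro geo
  induction geo with
  | nil =>
    intro cur h
    cases cur with
    | nil => exact List.Forall₂.nil
    | cons _ _ => simp [baseOK] at h
  | cons g geo ih =>
    intro cur h
    cases cur with
    | nil => simp [baseOK] at h
    | cons p cur =>
      simp only [baseOK, Bool.and_eq_true, decide_eq_true_eq] at h
      obtain ⟨⟨⟨⟨h1, h2⟩, h3⟩, h4⟩, h5⟩ := h
      refine List.Forall₂.cons ?_ (ih cur h5)
      intro s hs
      have h2R : (0 : ℝ) ≤ (g.1 : ℝ) - g.2 := by exact_mod_cast h2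
      have h3R : (0 : ℝ) ≤ (g.2 : ℝ) := by exact_mod_cast h3
      have h4R : (100 : ℝ) * ((g.1 : ℝ) + g.2) ≤ M := by exact_mod_cast h4
      set E : ℝ := 1 / 100 * (((g.1 : ℝ) + (g.2 : ℝ) * s) / den) with hEdef
      have hden : den = M / 100 := by rw [hMden]; ring
      have hEM : E = ((g.1 : ℝ) + (g.2 : ℝ) * s) / M := by
        rw [hEdef, hden]
        field_simp
      have h6 : -(g.2 : ℝ) ≤ (g.2 : ℝ) * s := by
        have := mul_le_mul_of_nonneg_left hs.1 h3R
        linarith
      have h7 : (g.2 : ℝ) * s ≤ g.2 := by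
        have := mul_le_mul_of_nonneg_left hs.2 h3R
        linarith
      have hE0 : 0 ≤ E := by
        rw [hEM]
        apply div_nonneg _ hMR.le
        linarith
      have hE1 : E ≤ 1 / 100 := by
        rw [hEM, div_le_div_iff₀ hMR (by norm_num)]
        linarith
      have h8 := base_point hqq hq hq1 hx hE0 hE1 hS hlen hok ht
      have h9 : |ev r E / S - ev p.1 s / S| ≤ ((p.2 : ℝ) - t) / S := by
        have h10 := abs_ev_le (psub (comp g.1 g.2 M r) (psmul (M ^ r.length) p.1))
          (abs_le.2 hs : |s| ≤ 1)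
        have h11 : ((n1 (psub (comp g.1 g.2 M r) (psmul (M ^ r.length) p.1)) : ℤ) : ℝ) ≤
            (M : ℝ) ^ r.length * ((p.2 : ℝ) - t) := by exact_mod_cast h1
        rw [ev_psub, ev_psmul, ev_comp _ _ _ hM.ne', ← hEM] at h10
        push_cast at h10
        rw [← mul_sub, abs_mul, abs_of_pos (by positivity : (0 : ℝ) < (M : ℝ) ^ r.length)] at h10
        have h12 := h10.trans h11
        have h13 := le_of_mul_le_mul_left h12 (by positivity)
        rw [← sub_div, abs_div, abs_of_pos hSR]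
        exact div_le_div_of_nonneg_right h13 hSR.le
      have h14 := abs_add_le (B q E - ev r E / S) (ev r E / S - ev p.1 s / S)
      rw [sub_add_sub_cancel] at h14
      refine h14.trans ((add_le_add h8 h9).trans (le_of_eq ?_))
      rw [← add_div]
      ring

end Pool.Agent.Counters.Tight
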