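import Pool.Agent.Lib.Counters.Tight.Final
import Pool.Agent.Lib.Counters.Tight.Data1
import Pool.Agent.Lib.Counters.Tight.Data2
import Pool.Agent.Lib.Counters.NumSpeed

/-!
Sharp numerics: `B q₁` has a zero for `q₁ = 352122552625 / 10 ^ 12`, and `q₂ = 35212255263 / 10 ^ 11`
satisfies the trap condition.
-/

namespace Pool.Agent.Counters.Tight

open Set

theorem coefOK1 : coefOK (2816980421 / 8000000000) (10 ^ 28) 12 coef1 = true := by decide +kernel
theorem coefOK2 : coefOK (35212255263 / 100000000000) (10 ^ 28) 12 coef2 = true := by decide +kernel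

theorem chain1 : chain geo1 5633960842 16000000000 = true := by decide +kernel
theorem chain2 : chain geo2 70424510526 200000000000 = true := by decide +kernel

theorem baseOK1 : baseOK 1600000000000 89807 coef1 geo1 base1 = true := by decide +kernel
theorem baseOK2 : baseOK 20000000000000 89807 coef2 geo2 base2 = true := by decide +kernel

theorem run1 : allRun 2816980421 8000000000 (10 ^ 28) geo1 base1 gens1 (lastOf base1).1
    (lastOf base1).2 = some vals1 := by decide +kernel
theorem run2 : allRun 35212255263 100000000000 (10 ^ 28) geo2 base2 gens2 (lastOf base2).1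
    (lastOf base2).2 = some vals2 := by decide +kernel

theorem tight_neg : ∃ E, 0 < E ∧ B (2816980421 / 8000000000) E < 0 := by
  have h := values_of (qq := 2816980421 / 8000000000) (q := 2816980421 / 8000000000)
    (den := 16000000000) (a := 2816980421) (b := 8000000000) (S := 10 ^ 28)
    (M := 1600000000000) (t := 89807) (r := coef1) (n := 12)
    (by push_cast; norm_num) (by norm_num) (by norm_num) (by norm_num) (by norm_num)
    (by norm_num) (by norm_num) (by norm_num) (by norm_num) (by decide) coefOK1 (by norm_num)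
    geo1 (by decide) 5633960842 16000000000 (by norm_num) (by norm_num) chain1 base1 baseOK1
    gens1 vals1 run1
  have h9 := h 8 (-55587316309577969, 17869652514910) (by decide)
  refine ⟨1 / 100 / (2816980421 / 8000000000) ^ (8 + 1), by positivity, ?_⟩
  have := (abs_le.1 h9).2
  norm_num at this ⊢
  linarith

theorem speed_one_lt : 1 < speed (35212255263 / 100000000000) := by
  have h1 := speed_strictMono (a := 3521 / 10000) (b := 35212255263 / 100000000000)
    ⟨by norm_num, by norm_num⟩ ⟨by norm_num, by norm_num⟩ (by norm_num)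
  have h2 := speed_lower
  norm_num at h2 ⊢
  linarith

theorem tight_trap : ∃ E, 0 < E ∧
    (∀ E', 0 < E' → E' ≤ E → 0 < B (35212255263 / 100000000000) E') ∧
    (B (35212255263 / 100000000000) (35212255263 / 100000000000 * E)) ^ 2 <
      speed (35212255263 / 100000000000) / 2 * B (35212255263 / 100000000000) E := by
  have h := values_of (qq := 35212255263 / 100000000000) (q := 35212255263 / 100000000000)
    (den := 200000000000) (a := 35212255263) (b := 100000000000) (S := 10 ^ 28)
    (M := 20000000000000) (t := 89807) (r := coef2) (n := 12)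
    (by push_cast; norm_num) (by norm_num) (by norm_num) (by norm_num) (by norm_num)
    (by norm_num) (by norm_num) (by norm_num) (by norm_num) (by decide) coefOK2 (by norm_num)
    geo2 (by decide) 70424510526 200000000000 (by norm_num) (by norm_num) chain2 base2 baseOK2
    gens2 vals2 run2
  obtain ⟨q, hqdef⟩ : ∃ q : ℝ, q = 35212255263 / 100000000000 := ⟨_, rfl⟩
  rw [← hqdef] at h ⊢
  have hq : 0 < q := by rw [hqdef]; norm_num
  have hq1 : q < 1 := by rw [hqdef]; norm_num
  have hx : 1 / (1 - q) ^ 2 ≤ 12 / 5 := by rw [hqdef]; norm_num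
  have hpos : ∀ k < 9, 0 < B q (1 / 100 / q ^ (k + 1)) := by
    intro k hk
    have hall : ∀ k < 9, ∀ p : ℤ × ℤ, vals2[k]? = some p → p.2 < p.1 := by
      intro k hk p hp
      have hd : (vals2.all fun p => decide (p.2 < p.1)) = true := by decide +kernel
      rw [List.all_eq_true] at hd
      have := hd p (List.mem_of_getElem? hp)
      rwa [decide_eq_true_iff] at this
    obtain ⟨p, hp⟩ : ∃ p, vals2[k]? = some p := by
      have hlen : vals2.length = 9 := by decide
      exact ⟨vals2[k], List.getElem?_eq_getElem (by omega)⟩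
    have h1 := (abs_le.1 (h k p hp)).1
    have h2 : (p.2 : ℝ) < p.1 := by exact_mod_cast hall k hk p hp
    push_cast at h1
    have h3 : (p.2 : ℝ) / 10 ^ 28 < (p.1 : ℝ) / 10 ^ 28 := div_lt_div_of_pos_right h2 (by positivity)
    linarith
  have hgrid : ∀ j : ℕ, 0 < B q (q ^ j * (1 / 100 / q ^ 9)) := by
    intro j
    rcases Nat.lt_or_ge j 9 with hj | hj
    · have h1 := hpos (8 - j) (by omega)
      have h2 : 1 / 100 / q ^ (8 - j + 1) = q ^ j * (1 / 100 / q ^ 9) := by
        have h3 : q ^ 9 = q ^ j * q ^ (8 - j + 1) := by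
          rw [← pow_add]
          congr 1
          omega
        rw [h3]
        field_simp
      rwa [h2] at h1
    · obtain ⟨i, rfl⟩ : ∃ i, j = i + 9 := ⟨j - 9, by omega⟩
      have h2 : q ^ (i + 9) * (1 / 100 / q ^ 9) = q ^ i * (1 / 100) := by
        rw [pow_add]
        field_simp
      rw [h2]
      have h3 : q ^ i ≤ 1 := pow_le_one₀ hq.le hq1.le
      have h4 : 0 < q ^ i := by positivity
      exact pos_small hq hq1 hx (by positivity) (by linarith)
  refine ⟨1 / 100 / q ^ 9, by positivity, pos_of_grid hq hq1 (by positivity) hgrid, ?_⟩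
  have hs : 1 < speed q := by
    rw [hqdef]
    exact speed_one_lt
  have h8 := h 8 (95751812533441485, 17869652837686) (by decide)
  have h7 := h 7 (715807802378081159, 17825391154253) (by decide)
  have e7 : q * (1 / 100 / q ^ 9) = 1 / 100 / q ^ (7 + 1) := by
    field_simp
  rw [e7]
  have h8' := (abs_le.1 h8).1
  have h7' := abs_le.1 h7
  norm_num at h8' h7' ⊢
  have hb8 : (9 / 10 ^ 12 : ℝ) < B q (1 / 100 / q ^ 9) := by
    norm_num
    linarith
  have hb7 : |B q (1 / 100 / q ^ 8)| ≤ 1 / 10 ^ 9 := by
    rw [abs_le]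
    constructor
    · norm_num
      linarith [h7'.1]
    · norm_num
      linarith [h7'.2]
  have hsq : B q (1 / 100 / q ^ 8) ^ 2 ≤ (1 / 10 ^ 9) ^ 2 := by
    rw [← sq_abs]
    exact pow_le_pow_left₀ (abs_nonneg _) hb7 2
  have hfin : (1 / 10 ^ 9 : ℝ) ^ 2 < speed q / 2 * B q (1 / 100 / q ^ 9) := by
    have : (1 / 2 : ℝ) * (9 / 10 ^ 12) < speed q / 2 * B q (1 / 100 / q ^ 9) := by
      apply mul_lt_mul'' _ hb8 (by norm_num) (by norm_num)
      linarith
    refine lt_trans ?_ this
    norm_num
  norm_num at hsq hfin
  linarith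

end Pool.Agent.Counters.Tight
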