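import Pool.Agent.Lib.Counters.Tight.Base
import Pool.Agent.Lib.Counters.Crit

/-!
From the checks to the values of `B q` at the ends of the generations, and positivity from the values
at the points `q ^ j E`.
-/

namespace Pool.Agent.Counters.Tight

open Set

/-- value and error at the right end of the last piece -/
def lastOf : List (List ℤ × ℤ) → ℤ × ℤ
  | [] => (0, 0)
  | [p] => (pevZ p.1 1, p.2)
  | _ :: p :: l => lastOf (p :: l)

theorem lastOf_sound {q τ den : ℝ} {S : ℤ} :
    ∀ (geo : List (ℤ × ℤ)) (cur : List (List ℤ × ℤ)) (x x' : ℤ), geo ≠ [] → chain geo x x' = true →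
      List.Forall₂ (Appr q τ den S) geo cur →
      |B q (τ * ((x' : ℝ) / den)) - ((lastOf cur).1 : ℝ) / S| ≤ ((lastOf cur).2 : ℝ) / S := by
  intro geo
  induction geo with
  | nil => intro cur x x' h; exact absurd rfl h
  | cons g geo ih =>
    intro cur x x' _ hc hA
    cases hA with
    | @cons _ p _ cur hp hA =>
      simp only [chain, Bool.and_eq_true, decide_eq_true_eq] at hc
      obtain ⟨⟨⟨hc1, hc2⟩, hc3⟩, hc4⟩ := hc
      cases geo with
      | nil =>
        cases hA
        simp only [chain, decide_eq_true_eq] at hc4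
        have h1 := hp 1 (by constructor <;> norm_num)
        have hp1 : ev p.1 1 = (pevZ p.1 1 : ℝ) := by
          have := ev_pevZ p.1 1
          push_cast at this
          exact this
        rw [hp1, mul_one] at h1
        rw [← hc4]
        push_cast
        simpa [lastOf] using h1
      | cons g' geo' =>
        cases hA with
        | @cons _ p' _ cur' hp' hA' =>
          have := ih (p' :: cur') (g.1 + g.2) x' (by simp) hc4 (List.Forall₂.cons hp' hA')
          simpa [lastOf] using this

theorem values_of {qq : ℚ} {q den : ℝ} {a b S M t : ℤ} {r : List ℤ} {n : ℕ} (hqq : q = (qq : ℝ))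
    (hq : 0 < q) (hq1 : q < 1) (hx : 1 / (1 - q) ^ 2 ≤ 12 / 5) (hb : 0 < b)
    (hqab : q = (a : ℝ) / (b : ℝ)) (hS : 0 < S) (hM : 0 < M) (hMden : (M : ℝ) = 100 * den)
    (hlen : r.length = n + 2) (hok : coefOK qq S n r = true)
    (ht : (S : ℝ) * ((12 / 5) ^ (n + 1) * (1 / 100) ^ (n + 2) * (125 / 122)) + 2 ≤ t)
    (geo : List (ℤ × ℤ)) (hgeo : geo ≠ []) (x x' : ℤ) (hxq : (x : ℝ) = q * den) (hx' : (x' : ℝ) = den)
    (hc : chain geo x x' = true) (base : List (List ℤ × ℤ)) (hbase : baseOK M t r geo base = true)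
    (curs : List (List (List ℤ × ℤ))) (l : List (ℤ × ℤ))
    (hrun : allRun a b S geo base curs (lastOf base).1 (lastOf base).2 = some l) :
    ∀ k, ∀ p : ℤ × ℤ, l[k]? = some p →
      |B q (1 / 100 / q ^ (k + 1)) - (p.1 : ℝ) / S| ≤ (p.2 : ℝ) / S := by
  have hMR : (0 : ℝ) < M := by exact_mod_cast hM
  have hden : 0 < den := by linarith
  have h1 := base_sound hqq hq hq1 hx hS hM hMden hlen hok ht geo base hbase
  have h2 := lastOf_sound geo base x x' hgeo hc h1
  rw [hx', div_self hden.ne', mul_one] at h2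
  exact allRun_sound hq hq1 hb hqab hS hden geo x x' hxq hx' hc curs base _ _ _ l hrun h1 h2

theorem pos_small {q E : ℝ} (hq : 0 < q) (hq1 : q < 1) (hx : 1 / (1 - q) ^ 2 ≤ 12 / 5) (hE : 0 ≤ E)
    (hE1 : E ≤ 1 / 100) : 0 < B q E := by
  have h := tail_le hq hq1 hx hE hE1 0
  simp only [zero_add, Finset.range_one, Finset.sum_singleton, beta_zero, pow_zero, mul_one, pow_one,
    one_mul] at h
  have := (abs_le.1 h).1
  linarith

theorem pos_of_grid {q : ℝ} (hq : 0 < q) (hq1 : q < 1) {E : ℝ} (hE : 0 < E)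
    (h : ∀ j : ℕ, 0 < B q (q ^ j * E)) : ∀ E', 0 < E' → E' ≤ E → 0 < B q E' := by
  intro E' hE' hEE
  by_contra hcon
  push Not at hcon
  have hl := neg_log_pos hq hq1
  have hsol := fq_sol hq hq1
  obtain ⟨X, hX, hX'⟩ := hsol.first_zero ⟨Real.log E' / (-Real.log q), by
    unfold fq
    rw [exp_surj hq hq1 hE']
    exact hcon⟩
  have hXE : X ≤ Real.log E / (-Real.log q) := by
    have h1 : X ≤ Real.log E' / (-Real.log q) := by
      by_contra hlt
      push Not at hlt
      have h2 := hX' _ hlt
      unfold fq at h2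
      rw [exp_surj hq hq1 hE'] at h2
      linarith
    refine h1.trans ?_
    exact div_le_div_of_nonneg_right (Real.log_le_log hE' hEE) hl.le
  set xs : ℝ := Real.log E / (-Real.log q) with hxs
  set j : ℕ := ⌊xs - X⌋₊ with hj
  have hj1 : (j : ℝ) ≤ xs - X := Nat.floor_le (by linarith)
  have hj2 : xs - X < j + 1 := Nat.lt_floor_add_one _
  have hanti := (hsol.strict X hX').antitoneOn
  have h3 : fq q (xs - j) ≤ fq q X := hanti (by simp only [mem_Iic]; linarith)
    (by simp only [mem_Iic]; linarith) (by linarith)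
  rw [hX] at h3
  have h4 : fq q (xs - j) = B q (q ^ j * E) := by
    unfold fq
    congr 1
    have h5 : -(Real.log q) * (xs - j) = (j : ℝ) * Real.log q + -(Real.log q) * xs := by ring
    rw [h5, Real.exp_add, hxs, exp_surj hq hq1 hE, Real.exp_nat_mul, Real.exp_log hq]
  rw [h4] at h3
  exact absurd (h j) (not_lt.2 h3)

end Pool.Agent.Counters.Tight
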