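import Mathlib

/-!
Polynomials as lists of integers, for kernel computation, and a Gronwall type estimate.
-/

namespace Pool.Agent.Counters.Tight

open Set

/-- value of the polynomial with coefficient list `p` -/
noncomputable def ev : List ℤ → ℝ → ℝ
  | [], _ => 0
  | a :: p, s => (a : ℝ) + s * ev p s

def padd : List ℤ → List ℤ → List ℤ
  | [], q => q
  | a :: p, [] => a :: p
  | a :: p, b :: q => (a + b) :: padd p q

def psmul (c : ℤ) : List ℤ → List ℤ
  | [] => []
  | a :: p => (c * a) :: psmul c p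

def pmul : List ℤ → List ℤ → List ℤ
  | [], _ => []
  | a :: p, q => padd (psmul a q) (0 :: pmul p q)

def psub (p q : List ℤ) : List ℤ := padd p (psmul (-1) q)

def pder : List ℤ → List ℤ
  | [] => []
  | _ :: p => padd p (0 :: pder p)

def n1 : List ℤ → ℤ
  | [] => 0
  | a :: p => |a| + n1 p

def pevZ : List ℤ → ℤ → ℤ
  | [], _ => 0
  | a :: p, s => a + s * pevZ p s

theorem ev_padd (p q : List ℤ) (s : ℝ) : ev (padd p q) s = ev p s + ev q s := by
  induction p generalizing q with
  | nil => simp [padd, ev]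
  | cons a p ih =>
    cases q with
    | nil => simp [padd, ev]
    | cons b q =>
      simp only [padd, ev, ih]
      push_cast
      ring

theorem ev_psmul (c : ℤ) (p : List ℤ) (s : ℝ) : ev (psmul c p) s = c * ev p s := by
  induction p with
  | nil => simp [psmul, ev]
  | cons a p ih =>
    simp only [psmul, ev, ih]
    push_cast
    ring

theorem ev_pmul (p q : List ℤ) (s : ℝ) : ev (pmul p q) s = ev p s * ev q s := by
  induction p with
  | nil => simp [pmul, ev]
  | cons a p ih =>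
    simp only [pmul, ev, ih, ev_padd, ev_psmul]
    push_cast
    ring

theorem ev_psub (p q : List ℤ) (s : ℝ) : ev (psub p q) s = ev p s - ev q s := by
  rw [psub, ev_padd, ev_psmul]
  push_cast
  ring

theorem ev_pevZ (p : List ℤ) (s : ℤ) : ev p (s : ℝ) = (pevZ p s : ℝ) := by
  induction p with
  | nil => simp [pevZ, ev]
  | cons a p ih =>
    simp only [pevZ, ev, ih]
    push_cast
    ring

theorem hasDerivAt_ev (p : List ℤ) (s : ℝ) : HasDerivAt (ev p) (ev (pder p) s) s := by
  induction p generalizing s with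
  | nil =>
    have : ev [] = fun _ => 0 := by
      funext x
      simp [ev]
    rw [this, pder]
    simpa [ev] using hasDerivAt_const s (0 : ℝ)
  | cons a p ih =>
    have : ev (a :: p) = fun x => (a : ℝ) + x * ev p x := by
      funext x
      simp [ev]
    rw [this, pder, ev_padd]
    have h := ((hasDerivAt_id s).mul (ih s)).const_add (a : ℝ)
    simp only [id] at h
    refine h.congr_deriv ?_
    simp [ev]

theorem n1_nonneg (p : List ℤ) : 0 ≤ n1 p := by
  induction p with
  | nil => simp [n1]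
  | cons a p ih =>
    simp only [n1]
    have := abs_nonneg a
    linarith

theorem abs_ev_le (p : List ℤ) {s : ℝ} (hs : |s| ≤ 1) : |ev p s| ≤ (n1 p : ℝ) := by
  induction p with
  | nil => simp [n1, ev]
  | cons a p ih =>
    simp only [n1, ev]
    push_cast
    refine (abs_add_le _ _).trans ?_
    rw [abs_mul]
    have h1 : |s| * |ev p s| ≤ 1 * (n1 p : ℝ) :=
      mul_le_mul hs ih (abs_nonneg _) (by norm_num)
    linarith

/-- Error propagation through one piece for the equation
`(1 - q) (κ + s) F' = w (F - w)` on `[-1, 1]`. -/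
theorem gron {F w P W F' P' : ℝ → ℝ} {lam κ δ ε0 wM mM ρ ε : ℝ} (hlam : 0 < lam) (hκ : 1 < κ)
    (hF : ∀ s ∈ Icc (-1 : ℝ) 1, HasDerivAt F (F' s) s)
    (hode : ∀ s ∈ Icc (-1 : ℝ) 1, lam * ((κ + s) * F' s) = w s * (F s - w s))
    (hP : ∀ s, HasDerivAt P (P' s) s)
    (hw : ∀ s ∈ Icc (-1 : ℝ) 1, |w s - W s| ≤ δ)
    (hwM : ∀ s ∈ Icc (-1 : ℝ) 1, |w s| ≤ wM)
    (hm : ∀ s ∈ Icc (-1 : ℝ) 1, |P s - w s - W s| ≤ mM)
    (hρ : ∀ s ∈ Icc (-1 : ℝ) 1, |lam * ((κ + s) * P' s) - W s * (P s - W s)| ≤ ρ)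
    (h0 : |F (-1) - P (-1)| ≤ ε0)
    (hpos : 0 < lam * (κ - 1) - 2 * wM)
    (hε : ε0 * (lam * (κ - 1)) + 2 * (δ * mM + ρ) ≤ ε * (lam * (κ - 1) - 2 * wM)) :
    ∀ s ∈ Icc (-1 : ℝ) 1, |F s - P s| ≤ ε := by
  have hcont : ContinuousOn (fun s => |F s - P s|) (Icc (-1 : ℝ) 1) := by
    intro s hs
    exact ((hF s hs).continuousAt.sub (hP s).continuousAt).abs.continuousWithinAt
  obtain ⟨s1, hs1, hmax⟩ := isCompact_Icc.exists_isMaxOn
    (⟨-1, by constructor <;> norm_num⟩ : (Icc (-1 : ℝ) 1).Nonempty) hcont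
  set M : ℝ := |F s1 - P s1| with hM
  have hM0 : 0 ≤ M := abs_nonneg _
  have hMb : ∀ s ∈ Icc (-1 : ℝ) 1, |F s - P s| ≤ M := fun s hs => hmax hs
  have hwM0 : 0 ≤ wM := (abs_nonneg _).trans (hwM (-1) (by constructor <;> norm_num))
  have hδ0 : 0 ≤ δ := (abs_nonneg _).trans (hw (-1) (by constructor <;> norm_num))
  have hm0 : 0 ≤ mM := (abs_nonneg _).trans (hm (-1) (by constructor <;> norm_num))
  have hρ0 : 0 ≤ ρ := (abs_nonneg _).trans (hρ (-1) (by constructor <;> norm_num))
  have hk : 0 < lam * (κ - 1) := by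
    have : 0 < κ - 1 := by linarith
    positivity
  set C : ℝ := (wM * M + δ * mM + ρ) / (lam * (κ - 1)) with hC
  have hCnn : 0 ≤ wM * M + δ * mM + ρ := by positivity
  have hder : ∀ s ∈ Icc (-1 : ℝ) 1, ‖F' s - P' s‖ ≤ C := by
    intro s hs
    rw [Real.norm_eq_abs, hC, le_div_iff₀ hk]
    have hid : lam * ((κ + s) * (F' s - P' s)) = w s * (F s - P s) +
        (w s - W s) * (P s - w s - W s) - (lam * ((κ + s) * P' s) - W s * (P s - W s)) := by
      have := hode s hs
      linear_combination this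
    have hle : |lam * ((κ + s) * (F' s - P' s))| ≤ wM * M + δ * mM + ρ := by
      rw [hid]
      refine (abs_sub _ _).trans ?_
      refine add_le_add ((abs_add_le _ _).trans (add_le_add ?_ ?_)) (hρ s hs)
      · rw [abs_mul]
        exact mul_le_mul (hwM s hs) (hMb s hs) (abs_nonneg _) hwM0
      · rw [abs_mul]
        exact mul_le_mul (hw s hs) (hm s hs) (abs_nonneg _) hδ0
    rw [abs_mul, abs_mul, abs_of_pos hlam] at hle
    have hks : κ - 1 ≤ |κ + s| := by
      refine le_trans ?_ (le_abs_self _)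
      linarith [hs.1]
    calc |F' s - P' s| * (lam * (κ - 1)) = lam * ((κ - 1) * |F' s - P' s|) := by ring
      _ ≤ lam * (|κ + s| * |F' s - P' s|) := by
          apply mul_le_mul_of_nonneg_left _ hlam.le
          exact mul_le_mul_of_nonneg_right hks (abs_nonneg _)
      _ ≤ _ := hle
  have hC0 : 0 ≤ C := by rw [hC]; positivity
  have hmv := (convex_Icc (-1 : ℝ) 1).norm_image_sub_le_of_norm_hasDerivWithin_le
    (f := fun s => F s - P s) (f' := fun s => F' s - P' s) (C := C)
    (fun s hs => ((hF s hs).sub (hP s)).hasDerivWithinAt) hder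
    (x := -1) (y := s1) (by constructor <;> norm_num) hs1
  have h2 : ‖s1 - (-1)‖ ≤ 2 := by
    rw [Real.norm_eq_abs, abs_of_nonneg (by linarith [hs1.1])]
    linarith [hs1.2]
  have h3 : M ≤ ε0 + 2 * C := by
    have h4 : |F s1 - P s1| ≤ |(F s1 - P s1) - (F (-1) - P (-1))| + |F (-1) - P (-1)| := by
      have := abs_add_le ((F s1 - P s1) - (F (-1) - P (-1))) (F (-1) - P (-1))
      simpa using this
    have h5 : |(F s1 - P s1) - (F (-1) - P (-1))| ≤ C * 2 := by
      rw [← Real.norm_eq_abs]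
      exact hmv.trans (mul_le_mul_of_nonneg_left h2 hC0)
    linarith
  have h6 : M * (lam * (κ - 1)) ≤ ε0 * (lam * (κ - 1)) + 2 * (wM * M + δ * mM + ρ) := by
    have h7 := mul_le_mul_of_nonneg_right h3 hk.le
    have h8 : C * (lam * (κ - 1)) = wM * M + δ * mM + ρ := by
      rw [hC, div_mul_cancel₀ _ hk.ne']
    calc M * (lam * (κ - 1)) ≤ (ε0 + 2 * C) * (lam * (κ - 1)) := h7
      _ = ε0 * (lam * (κ - 1)) + 2 * (C * (lam * (κ - 1))) := by ring
      _ = _ := by rw [h8]
  have h9 : M * (lam * (κ - 1) - 2 * wM) ≤ ε * (lam * (κ - 1) - 2 * wM) := by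
    linarith
  have h10 : M ≤ ε := le_of_mul_le_mul_right h9 hpos
  exact fun s hs => (hMb s hs).trans h10

end Pool.Agent.Counters.Tight
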