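import Pool.Agent.Lib.Counters.Tight.Poly
import Pool.Agent.Lib.Counters.Series

/-!
Soundness of the piecewise polynomial enclosure of `B q`, `q = a / b`.
-/

namespace Pool.Agent.Counters.Tight

open Set

/-- check of one piece -/
def stepOK (a b S c h : ℤ) (W : List ℤ) (d : ℤ) (P : List ℤ) (e0 e : ℤ) : Bool :=
  decide (0 < (b - a) * (c - h) * S - 2 * b * h * (n1 W + d) ∧
    e0 * ((b - a) * (c - h) * S) + 2 * b * h * d * (n1 (psub P (psmul 2 W)) + d) +
      2 * n1 (psub (pmul [(b - a) * c * S, (b - a) * h * S] (pder P))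
        (psmul (b * h) (pmul W (psub P W)))) ≤
      e * ((b - a) * (c - h) * S - 2 * b * h * (n1 W + d)))

/-- `P / S` approximates `B q` on the piece `g`, scaled by `τ`. -/
def Appr (q τ den S : ℝ) (g : ℤ × ℤ) (p : List ℤ × ℤ) : Prop :=
  ∀ s ∈ Icc (-1 : ℝ) 1, |B q (τ * (((g.1 : ℝ) + (g.2 : ℝ) * s) / den)) - ev p.1 s / S| ≤ (p.2 : ℝ) / S

theorem step_sound {q τ den : ℝ} {a b S c h d e0 e : ℤ} {W P : List ℤ} (hq : 0 < q) (hq1 : q < 1)
    (hb : 0 < b) (hqab : q = (a : ℝ) / (b : ℝ)) (hS : 0 < S) (hh : 0 < h) (hch : 0 < c - h)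
    (hden : 0 < den)
    (hprev : Appr q τ den S (c, h) (W, d))
    (h0 : |B q (τ / q * (((c : ℝ) - h) / den)) - ev P (-1) / S| ≤ (e0 : ℝ) / S)
    (hok : stepOK a b S c h W d P e0 e = true) :
    Appr q (τ / q) den S (c, h) (P, e) := by
  have hbR : (0 : ℝ) < b := by exact_mod_cast hb
  have hSR : (0 : ℝ) < S := by exact_mod_cast hS
  have hhR : (0 : ℝ) < h := by exact_mod_cast hh
  have hchR : (0 : ℝ) < (c : ℝ) - h := by exact_mod_cast hch
  unfold stepOK at hok
  rw [decide_eq_true_iff] at hok
  obtain ⟨hok1, hok2⟩ := hok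
  have hok1R : (0 : ℝ) < ((b : ℝ) - a) * (c - h) * S - 2 * b * h * (n1 W + d) := by
    exact_mod_cast hok1
  set N2 : ℤ := n1 (psub (pmul [(b - a) * c * S, (b - a) * h * S] (pder P))
        (psmul (b * h) (pmul W (psub P W)))) with hN2
  have hok2R : (e0 : ℝ) * (((b : ℝ) - a) * (c - h) * S) +
      2 * b * h * d * (n1 (psub P (psmul 2 W)) + d) + 2 * (N2 : ℝ) ≤
      (e : ℝ) * (((b : ℝ) - a) * (c - h) * S - 2 * b * h * (n1 W + d)) := by
    exact_mod_cast hok2
  choose D hD hD' using fun E => B_deriv q hq hq1 E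
  have hlam : (1 - q) = ((b : ℝ) - a) / b := by
    rw [hqab]
    field_simp
  have hS1 : ∀ s ∈ Icc (-1 : ℝ) 1, |s| ≤ 1 := fun s hs => abs_le.2 hs
  intro s hs
  simp only
  refine gron (F := fun s => B q (τ / q * (((c : ℝ) + h * s) / den)))
    (w := fun s => B q (τ * (((c : ℝ) + h * s) / den)))
    (P := fun s => ev P s / S) (W := fun s => ev W s / S)
    (F' := fun s => D (τ / q * (((c : ℝ) + h * s) / den)) * (τ / q * (h / den)))
    (P' := fun s => ev (pder P) s / S) (lam := 1 - q) (κ := c / h) (δ := (d : ℝ) / S)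
    (ε0 := (e0 : ℝ) / S) (wM := ((n1 W : ℝ) + d) / S)
    (mM := ((n1 (psub P (psmul 2 W)) : ℝ) + d) / S)
    (ρ := (N2 : ℝ) / (b * h * S ^ 2)) (ε := (e : ℝ) / S) (by linarith)
    (by rw [lt_div_iff₀ hhR]; linarith) ?_ ?_ ?_ ?_ ?_ ?_ ?_ ?_ ?_ ?_ s hs
  · intro s hs
    have h1 : HasDerivAt (fun s : ℝ => τ / q * (((c : ℝ) + h * s) / den)) (τ / q * (h / den)) s := by
      have := (((hasDerivAt_id s).const_mul (h : ℝ)).const_add (c : ℝ)).div_const den
      have := this.const_mul (τ / q)
      simpa using this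
    exact (hD _).comp s h1
  · intro s hs
    have h1 := hD' (τ / q * (((c : ℝ) + h * s) / den))
    have h2 : q * (τ / q * (((c : ℝ) + h * s) / den)) = τ * (((c : ℝ) + h * s) / den) := by
      field_simp
    rw [h2] at h1
    rw [← h1]
    field_simp
  · intro s
    exact (hasDerivAt_ev P s).div_const _
  · intro s hs
    exact hprev s hs
  · intro s hs
    have h1 := hprev s hs
    simp only at h1
    have h2 : |ev W s / S| ≤ (n1 W : ℝ) / S := by
      rw [abs_div, abs_of_pos hSR]
      exact div_le_div_of_nonneg_right (abs_ev_le W (hS1 s hs)) hSR.le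
    have h3 := abs_add_le (B q (τ * (((c : ℝ) + h * s) / den)) - ev W s / S) (ev W s / S)
    rw [sub_add_cancel] at h3
    have h4 : ((n1 W : ℝ) + d) / S = (n1 W : ℝ) / S + (d : ℝ) / S := add_div _ _ _
    rw [h4]
    linarith
  · intro s hs
    have h1 := hprev s hs
    simp only at h1
    have h2 : |ev (psub P (psmul 2 W)) s / S| ≤ (n1 (psub P (psmul 2 W)) : ℝ) / S := by
      rw [abs_div, abs_of_pos hSR]
      exact div_le_div_of_nonneg_right (abs_ev_le _ (hS1 s hs)) hSR.le
    have h3 : ev P s / S - B q (τ * (((c : ℝ) + h * s) / den)) - ev W s / S =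
        ev (psub P (psmul 2 W)) s / S - (B q (τ * (((c : ℝ) + h * s) / den)) - ev W s / S) := by
      rw [ev_psub, ev_psmul]
      push_cast
      ring
    have h4 : ((n1 (psub P (psmul 2 W)) : ℝ) + d) / S =
        (n1 (psub P (psmul 2 W)) : ℝ) / S + (d : ℝ) / S := add_div _ _ _
    rw [h3, h4]
    refine (abs_sub _ _).trans ?_
    linarith
  · intro s hs
    have h1 : (1 - q) * ((c / h + s) * (ev (pder P) s / S)) -
        ev W s / S * (ev P s / S - ev W s / S) =
        ev (psub (pmul [(b - a) * c * S, (b - a) * h * S] (pder P))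
        (psmul (b * h) (pmul W (psub P W)))) s / (b * h * S ^ 2) := by
      rw [ev_psub, ev_psmul, ev_pmul, ev_pmul, ev_psub, hlam]
      simp only [ev]
      push_cast
      field_simp
      ring
    rw [h1, abs_div, abs_of_pos (by positivity : (0 : ℝ) < b * h * S ^ 2)]
    exact div_le_div_of_nonneg_right (abs_ev_le _ (hS1 s hs)) (by positivity)
  · have h1 : ((c : ℝ) + h * (-1)) = (c : ℝ) - h := by ring
    rw [h1]
    exact h0
  · have h1 : (1 - q) * ((c : ℝ) / h - 1) - 2 * (((n1 W : ℝ) + d) / S) =
        (((b : ℝ) - a) * (c - h) * S - 2 * b * h * (n1 W + d)) / (b * h * S) := by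
      rw [hlam]
      field_simp
    rw [h1]
    positivity
  · have h1 : (e0 : ℝ) / S * ((1 - q) * ((c : ℝ) / h - 1)) +
        2 * ((d : ℝ) / S * (((n1 (psub P (psmul 2 W)) : ℝ) + d) / S) + (N2 : ℝ) / (b * h * S ^ 2)) =
        ((e0 : ℝ) * (((b : ℝ) - a) * (c - h) * S) +
      2 * b * h * d * (n1 (psub P (psmul 2 W)) + d) + 2 * (N2 : ℝ)) / (b * h * S ^ 2) := by
      rw [hlam]
      field_simp
      ring
    have h2 : (e : ℝ) / S * ((1 - q) * ((c : ℝ) / h - 1) - 2 * (((n1 W : ℝ) + d) / S)) =
        ((e : ℝ) * (((b : ℝ) - a) * (c - h) * S - 2 * b * h * (n1 W + d))) / (b * h * S ^ 2) := by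
      rw [hlam]
      field_simp
    rw [h1, h2]
    exact div_le_div_of_nonneg_right hok2R (by positivity)

/-- the pieces cover `[x, x']` in order -/
def chain : List (ℤ × ℤ) → ℤ → ℤ → Bool
  | [], x, x' => decide (x = x')
  | g :: geo, x, x' => decide (g.1 - g.2 = x) && decide (0 < g.2) && decide (0 < x) &&
      chain geo (g.1 + g.2) x'

/-- one generation -/
def genRun (a b S : ℤ) : List (ℤ × ℤ) → List (List ℤ × ℤ) → List (List ℤ × ℤ) → ℤ → ℤ →
    Option (ℤ × ℤ)
  | [], [], [], v, e => some (v, e)
  | g :: geo, w :: prev, p :: cur, v, e =>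
      if stepOK a b S g.1 g.2 w.1 w.2 p.1 (e + |v - pevZ p.1 (-1)|) p.2 = true then
        genRun a b S geo prev cur (pevZ p.1 1) p.2
      else none
  | _, _, _, _, _ => none

theorem genRun_sound {q τ den : ℝ} {a b S : ℤ} (hq : 0 < q) (hq1 : q < 1)
    (hb : 0 < b) (hqab : q = (a : ℝ) / (b : ℝ)) (hS : 0 < S) (hden : 0 < den) :
    ∀ (geo : List (ℤ × ℤ)) (prev cur : List (List ℤ × ℤ)) (x x' v e v' e' : ℤ),
      chain geo x x' = true → genRun a b S geo prev cur v e = some (v', e') →
      List.Forall₂ (Appr q τ den S) geo prev →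
      |B q (τ / q * ((x : ℝ) / den)) - (v : ℝ) / S| ≤ (e : ℝ) / S →
      List.Forall₂ (Appr q (τ / q) den S) geo cur ∧
      |B q (τ / q * ((x' : ℝ) / den)) - (v' : ℝ) / S| ≤ (e' : ℝ) / S := by
  have hSR : (0 : ℝ) < S := by exact_mod_cast hS
  intro geo
  induction geo with
  | nil =>
    intro prev cur x x' v e v' e' hc hr hA h0
    cases prev with
    | cons _ _ => simp [genRun] at hr
    | nil =>
      cases cur with
      | cons _ _ => simp [genRun] at hr
      | nil =>
        simp only [genRun, Option.some.injEq, Prod.mk.injEq] at hr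
        simp only [chain, decide_eq_true_eq] at hc
        obtain ⟨rfl, rfl⟩ := hr
        subst hc
        exact ⟨List.Forall₂.nil, h0⟩
  | cons g geo ih =>
    intro prev cur x x' v e v' e' hc hr hA h0
    cases prev with
    | nil => simp [genRun] at hr
    | cons w prev =>
      cases cur with
      | nil => simp [genRun] at hr
      | cons p cur =>
        simp only [genRun] at hr
        split_ifs at hr with hok
        simp only [chain, Bool.and_eq_true, decide_eq_true_eq] at hc
        obtain ⟨⟨⟨hc1, hc2⟩, hc3⟩, hc4⟩ := hc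
        rw [List.forall₂_cons] at hA
        have hpm : ev p.1 (-1) = (pevZ p.1 (-1) : ℝ) := by
          have := ev_pevZ p.1 (-1)
          push_cast at this
          exact this
        have hp1 : ev p.1 1 = (pevZ p.1 1 : ℝ) := by
          have := ev_pevZ p.1 1
          push_cast at this
          exact this
        have hx : ((g.1 : ℝ) - g.2) = x := by exact_mod_cast hc1
        have hstep := step_sound (c := g.1) (h := g.2) (W := w.1) (d := w.2) (P := p.1)
          (e0 := e + |v - pevZ p.1 (-1)|) (e := p.2) hq hq1 hb hqab hS hc2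
          (by rw [hc1]; exact hc3) hden hA.1 (by
            rw [hx, hpm]
            push_cast
            have h1 := abs_add_le (B q (τ / q * ((x : ℝ) / den)) - (v : ℝ) / S)
              (((v : ℝ) - pevZ p.1 (-1)) / S)
            have h2 : B q (τ / q * ((x : ℝ) / den)) - (v : ℝ) / S + ((v : ℝ) - pevZ p.1 (-1)) / S =
              B q (τ / q * ((x : ℝ) / den)) - (pevZ p.1 (-1) : ℝ) / S := by ring
            rw [h2, abs_div, abs_of_pos hSR] at h1
            rw [add_div]
            linarith) hok
        have h1 := hstep 1 (by constructor <;> norm_num)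
        simp only [mul_one] at h1
        rw [hp1] at h1
        have h2 := ih prev cur (g.1 + g.2) x' (pevZ p.1 1) p.2 v' e' hc4 hr hA.2 (by
          push_cast
          exact h1)
        exact ⟨List.Forall₂.cons hstep h2.1, h2.2⟩

/-- all generations; the values at the ends of the generations -/
def allRun (a b S : ℤ) (geo : List (ℤ × ℤ)) : List (List ℤ × ℤ) → List (List (List ℤ × ℤ)) →
    ℤ → ℤ → Option (List (ℤ × ℤ))
  | _, [], _, _ => some []
  | prev, cur :: rest, v, e =>
    match genRun a b S geo prev cur v e with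
    | none => none
    | some ve =>
      match allRun a b S geo cur rest ve.1 ve.2 with
      | none => none
      | some l => some (ve :: l)

theorem allRun_sound {q den : ℝ} {a b S : ℤ} (hq : 0 < q) (hq1 : q < 1)
    (hb : 0 < b) (hqab : q = (a : ℝ) / (b : ℝ)) (hS : 0 < S) (hden : 0 < den)
    (geo : List (ℤ × ℤ)) (x x' : ℤ) (hx : (x : ℝ) = q * den) (hx' : (x' : ℝ) = den)
    (hc : chain geo x x' = true) :
    ∀ (curs : List (List (List ℤ × ℤ))) (prev : List (List ℤ × ℤ)) (τ : ℝ) (v e : ℤ)
      (l : List (ℤ × ℤ)),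
      allRun a b S geo prev curs v e = some l →
      List.Forall₂ (Appr q τ den S) geo prev →
      |B q τ - (v : ℝ) / S| ≤ (e : ℝ) / S →
      ∀ k, ∀ p : ℤ × ℤ, l[k]? = some p → |B q (τ / q ^ (k + 1)) - (p.1 : ℝ) / S| ≤ (p.2 : ℝ) / S := by
  intro curs
  induction curs with
  | nil =>
    intro prev τ v e l hr hA h0 k p hp
    simp only [allRun, Option.some.injEq] at hr
    subst hr
    simp at hp
  | cons cur rest ih =>
    intro prev τ v e l hr hA h0 k p hp
    simp only [allRun] at hr
    split at hr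
    · simp at hr
    · rename_i ve hve
      split at hr
      · simp at hr
      · rename_i l' hl'
        simp only [Option.some.injEq] at hr
        subst hr
        have h1 := genRun_sound hq hq1 hb hqab hS hden geo prev cur x x' v e ve.1 ve.2 hc hve hA
          (by
            have : τ / q * ((x : ℝ) / den) = τ := by
              rw [hx]
              field_simp
            rw [this]
            exact h0)
        have h2 : τ / q * ((x' : ℝ) / den) = τ / q := by
          rw [hx']
          field_simp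
        rw [h2] at h1
        cases k with
        | zero =>
          simp only [List.getElem?_cons_zero, Option.some.injEq] at hp
          subst hp
          simpa using h1.2
        | succ k =>
          simp only [List.getElem?_cons_succ] at hp
          have h3 := ih cur (τ / q) ve.1 ve.2 l' hl' h1.1 h1.2 k p hp
          have h4 : τ / q ^ (k + 1 + 1) = τ / q / q ^ (k + 1) := by
            rw [div_div, ← pow_succ']
          rw [h4]
          exact h3

end Pool.Agent.Counters.Tight
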