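import Pool.Agent.Lib.Counters.Defs

/-!
Rational bounds for the speeds belonging to `q₁ = 2816980421 / 8000000000` and
`q₂ = 35212255263 / 100000000000`.
-/

namespace Pool.Agent.Counters.Tight

open Finset

theorem neg_log_lt : -Real.log (2816980421 / 8000000000) <
    (2 * (1 - 2816980421 / 8000000000)) / 1.24141088786 := by
  set y : ℝ := (2 * (1 - 2816980421 / 8000000000)) / 1.24141088786 with hy
  rw [neg_lt, ← Real.log_exp (-y)]
  apply Real.log_lt_log (Real.exp_pos _)
  rw [Real.exp_neg, inv_lt_comm₀ (Real.exp_pos _) (by norm_num)]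
  have h := Real.sum_le_exp_of_nonneg (x := y) (by rw [hy]; norm_num) 18
  refine lt_of_lt_of_le ?_ h
  rw [hy]
  simp only [Finset.sum_range_succ, Finset.sum_range_zero, Nat.factorial]
  norm_num

theorem lt_neg_log : (2 * (1 - 35212255263 / 100000000000)) / 1.24141088787 <
    -Real.log (35212255263 / 100000000000) := by
  set y : ℝ := (2 * (1 - 35212255263 / 100000000000)) / 1.24141088787 with hy
  rw [lt_neg, ← Real.log_exp (-y)]
  apply Real.log_lt_log (by norm_num)
  rw [Real.exp_neg, lt_inv_comm₀ (by norm_num) (Real.exp_pos _)]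
  have h := Real.exp_bound' (x := y / 2) (by rw [hy]; norm_num) (by rw [hy]; norm_num)
    (n := 14) (by norm_num)
  have h2 : Real.exp y = (Real.exp (y / 2)) ^ 2 := by
    rw [← Real.exp_nat_mul]
    congr 1
    push_cast
    ring
  rw [h2]
  refine lt_of_le_of_lt (pow_le_pow_left₀ (Real.exp_pos _).le h 2) ?_
  rw [hy]
  simp only [Finset.sum_range_succ, Finset.sum_range_zero, Nat.factorial]
  norm_num

theorem speed_lower : 1.24141088786 < speed (2816980421 / 8000000000) := by
  have h := neg_log_lt
  have hpos : 0 < -Real.log (2816980421 / 8000000000) := by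
    have := Real.log_neg (x := 2816980421 / 8000000000) (by norm_num) (by norm_num)
    linarith
  unfold speed
  rw [lt_div_iff₀ hpos]
  rw [lt_div_iff₀ (by norm_num)] at h
  linarith

theorem speed_upper : speed (35212255263 / 100000000000) < 1.24141088787 := by
  have h := lt_neg_log
  have hpos : 0 < -Real.log (35212255263 / 100000000000) := by
    have := Real.log_neg (x := 35212255263 / 100000000000) (by norm_num) (by norm_num)
    linarith
  unfold speed
  rw [div_lt_iff₀ hpos]
  rw [div_lt_iff₀ (by norm_num)] at h
  linarith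

end Pool.Agent.Counters.Tight
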